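import Pool.Agent.J6H9.EV.Stm

set_option autoImplicit false

namespace Pool.Agent.J6H44.EV.Ant

open Filter Topology Pool.Agent.J6H9.EU Pool.Agent.J6H9.EV

open Classical in
noncomputable def cn (A : Set ℕ) (n : ℕ) : ℕ := ((Finset.range n).filter (· ∈ A)).card

open Classical in
noncomputable def S (f : ℕ → ℝ) (A : Set ℕ) (n : ℕ) : ℝ := ∑ i ∈ (Finset.range n).filter (· ∈ A), f i

lemma ncard_eq (A : Set ℕ) (n : ℕ) : (A ∩ Set.Iio n).ncard = cn A n := by
  classical
  unfold cn
  rw [← Set.ncard_coe_finset]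
  congr 1
  ext x
  simp [and_comm]

open Classical in
lemma cn_succ (A : Set ℕ) (n : ℕ) : (cn A (n + 1) : ℝ) = cn A n + if n ∈ A then 1 else 0 := by
  unfold cn
  rw [Finset.range_add_one, Finset.filter_insert]
  split_ifs with h
  · rw [Finset.card_insert_of_notMem (by simp)]
    push_cast
    ring
  · simp

open Classical in
lemma S_succ (f : ℕ → ℝ) (A : Set ℕ) (n : ℕ) : S f A (n + 1) = S f A n + if n ∈ A then f n else 0 := by
  unfold S
  rw [Finset.range_add_one, Finset.filter_insert]
  split_ifs with h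
  · rw [Finset.sum_insert (by simp)]
    ring
  · simp

lemma abel {f : ℕ → ℝ} (hf : Antitone f) (B C : Set ℕ) (h : ∀ n, cn C n ≤ cn B n) (n : ℕ) :
    S f C n + f n * ((cn B n : ℝ) - cn C n) ≤ S f B n := by
  classical
  induction n with
  | zero => simp [S, cn]
  | succ n ih =>
    have h1 : (cn C (n + 1) : ℝ) ≤ cn B (n + 1) := by exact_mod_cast h (n + 1)
    have h2 : f (n + 1) ≤ f n := hf (Nat.le_succ n)
    have h3 : f (n + 1) * ((cn B (n + 1) : ℝ) - cn C (n + 1)) ≤
        f n * ((cn B (n + 1) : ℝ) - cn C (n + 1)) :=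
      mul_le_mul_of_nonneg_right h2 (by linarith)
    have e1 := cn_succ B n
    have e2 := cn_succ C n
    have e3 := S_succ f B n
    have e4 := S_succ f C n
    rw [e3, e4]
    rw [e1, e2] at h3
    rw [e1, e2]
    have e5 : (if n ∈ C then f n else 0) = f n * (if n ∈ C then 1 else 0) := by split_ifs <;> simp
    have e6 : (if n ∈ B then f n else 0) = f n * (if n ∈ B then 1 else 0) := by split_ifs <;> simp
    rw [e5, e6]
    nlinarith

theorem main : S_ANT := by
  classical
  intro f hf hanti B hB C hC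
  have hc : ∀ n, cn C n ≤ cn B n := fun n => by
    rw [← ncard_eq, ← ncard_eq]; exact hC n
  have hle : ∀ n, S f C n ≤ S f B n := fun n => by
    have h1 := abel hanti B C hc n
    have h2 : 0 ≤ f n * ((cn B n : ℝ) - cn C n) := by
      have : (cn C n : ℝ) ≤ cn B n := by exact_mod_cast hc n
      exact mul_nonneg (hf n) (by linarith)
    linarith
  have hF : ∀ n, 0 ≤ ∑ i ∈ Finset.range n, f i := fun n => Finset.sum_nonneg (fun i _ => hf i)
  refine tendsto_of_tendsto_of_tendsto_of_le_of_le tendsto_const_nhds hB ?_ ?_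
  · intro n
    exact div_nonneg (Finset.sum_nonneg (fun i _ => hf i)) (hF n)
  · intro n
    exact div_le_div_of_nonneg_right (hle n) (hF n)

end Pool.Agent.J6H44.EV.Ant
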